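import Pool.Agent.LE.StmtsQY
import Pool.Agent.Helper76_LQD.RAL
import Pool.Agent.Helper61_BED.Cov

/-!
# Squad LQY, row TMA: the mean mass in a box on the torus
-/

set_option autoImplicit false

open MeasureTheory ProbabilityTheory Function Filter

open scoped ENNReal BigOperators Topology NNReal ComplexOrder Matrix

noncomputable section

namespace Pool.Agent.LE.QY.H76

open Pool.Agent.Anderson hiding box mem_box card_box
open Pool.Agent.Loc Pool.Agent.Mob Pool.Agent.Helper54.Bal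
  Pool.Agent.Helper96.EXP Pool.Agent.BED
open Pool.Agent.LE.MN Pool.Agent.LE.CL Pool.Agent.LE.IR Pool.Agent.LE.QD Pool.Agent.LE.QF

section boxes

variable {d M : ℕ} [NeZero M]

/-- the box of radius `r` -/
def bx (d M r : ℕ) [NeZero M] : Finset (Tor d M) :=
  Fintype.piFinset fun _ => Finset.univ.filter fun t : ZMod M => |t.valMinAbs| ≤ (r : ℤ)

theorem mem_bx {r : ℕ} {x : Tor d M} : x ∈ bx d M r ↔ ∀ i, |(x i).valMinAbs| ≤ (r : ℤ) := by
  simp [bx]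

theorem card_bx_le (r : ℕ) : (bx d M r).card ≤ (2 * r + 1) ^ d := by
  unfold bx
  rw [Fintype.card_piFinset, Finset.prod_const, Finset.card_univ, Fintype.card_fin]
  refine Nat.pow_le_pow_left ?_ d
  have h := Finset.card_le_card_of_injOn
    (s := Finset.univ.filter fun t : ZMod M => |t.valMinAbs| ≤ (r : ℤ))
    (t := Finset.Icc (-(r : ℤ)) r) (fun t => t.valMinAbs)
    (fun t ht => by
      have h1 := (Finset.mem_filter.1 (Finset.mem_coe.1 ht)).2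
      exact Finset.mem_coe.2 (Finset.mem_Icc.2 (abs_le.1 h1)))
    (fun t _ t' _ h => ZMod.injective_valMinAbs h)
  rw [Int.card_Icc] at h
  have e : ((r : ℤ) + 1 - -(r : ℤ)).toNat = 2 * r + 1 := by omega
  rwa [e] at h

theorem card_bx_ge {r : ℕ} (hr : 2 * r < M) : (2 * r + 1) ^ d ≤ (bx d M r).card := by
  unfold bx
  rw [Fintype.card_piFinset, Finset.prod_const, Finset.card_univ, Fintype.card_fin]
  refine Nat.pow_le_pow_left ?_ d
  have hv : ∀ n : ℤ, n ∈ Finset.Icc (-(r : ℤ)) r → ((n : ℤ) : ZMod M).valMinAbs = n := by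
    intro n hn
    rw [ZMod.valMinAbs_spec]
    rw [Finset.mem_Icc] at hn
    refine ⟨rfl, ?_⟩
    rw [Set.mem_Ioc]
    have hr' : (2 * (r : ℤ)) < M := by exact_mod_cast hr
    constructor <;> linarith [hn.1, hn.2]
  have h := Finset.card_le_card_of_injOn
    (s := Finset.Icc (-(r : ℤ)) r)
    (t := Finset.univ.filter fun t : ZMod M => |t.valMinAbs| ≤ (r : ℤ))
    (fun n => ((n : ℤ) : ZMod M))
    (fun n hn => by
      refine Finset.mem_coe.2 (Finset.mem_filter.2 ⟨Finset.mem_univ _, ?_⟩)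
      have h1 := hv n (Finset.mem_coe.1 hn)
      rw [h1]
      exact abs_le.2 (Finset.mem_Icc.1 (Finset.mem_coe.1 hn)))
    (fun n hn n' hn' h => by
      have h1 := hv n (Finset.mem_coe.1 hn)
      have h2 := hv n' (Finset.mem_coe.1 hn')
      have h3 : ((n : ℤ) : ZMod M) = ((n' : ℤ) : ZMod M) := h
      rw [← h1, ← h2, h3])
  rw [Int.card_Icc] at h
  have e : ((r : ℤ) + 1 - -(r : ℤ)).toNat = 2 * r + 1 := by omega
  rwa [e] at h

theorem add_mem_bx {r : ℕ} {x y : Tor d M} (hx : x ∈ bx d M r) (hy : y ∈ bx d M r) :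
    x + y ∈ bx d M (2 * r) := by
  rw [mem_bx] at hx hy ⊢
  intro i
  have h1 := ZMod.natAbs_valMinAbs_add_le (x i) (y i)
  have h2 : ((x i).valMinAbs + (y i).valMinAbs).natAbs ≤
      (x i).valMinAbs.natAbs + (y i).valMinAbs.natAbs := Int.natAbs_add_le _ _
  have h3 := hx i
  have h4 := hy i
  have h5 : |((x + y) i).valMinAbs| = (((x i) + (y i)).valMinAbs.natAbs : ℤ) := by
    rw [Int.natCast_natAbs]
    rfl
  rw [h5]
  rw [Int.abs_eq_natAbs] at h3 h4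
  omega

theorem bx_sub (r : ℕ) : bx d M r ⊆ bx d M (2 * r) := by
  intro x hx
  rw [mem_bx] at hx ⊢
  intro i
  have := hx i
  have h0 := abs_nonneg (x i).valMinAbs
  push_cast
  linarith

theorem mem_real {r : ℕ} {x : Tor d M} : x ∈ bx d M r ↔ ∀ i, |((x i).valMinAbs : ℝ)| ≤ r := by
  rw [mem_bx]
  refine forall_congr' fun i => ?_
  constructor
  · intro h
    have h1 : ((|(x i).valMinAbs| : ℤ) : ℝ) ≤ ((r : ℤ) : ℝ) := by exact_mod_cast h
    simpa using h1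
  · intro h
    have h1 : ((|(x i).valMinAbs| : ℤ) : ℝ) ≤ ((r : ℤ) : ℝ) := by simpa using h
    exact_mod_cast h1

end boxes

section mean

variable {d M : ℕ} [NeZero M]

/-- the mass of the box -/
def ms (r : ℕ) (z : ℂ) (V : Tor d M → ℝ) : ℝ := ∑ y ∈ bx d M r, ‖rs V z 0 y‖ ^ 2

theorem ms_nn (r : ℕ) (z : ℂ) (V : Tor d M → ℝ) : 0 ≤ ms r z V :=
  Finset.sum_nonneg fun _ _ => by positivity

theorem ms_cont (r : ℕ) {z : ℂ} (hz0 : 0 < z.im) :
    Continuous fun V : Tor d M → ℝ => ms r z V :=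
  continuous_finsetSum _ fun y _ => (QD.H76.cont z hz0.ne' 0 y).norm.pow 2

theorem mss_cont (C : Finset (Tor d M)) {z : ℂ} (hz0 : 0 < z.im) :
    Continuous fun V : Tor d M → ℝ => mss V z C :=
  continuous_finsetSum _ fun x _ => continuous_finsetSum _ fun y _ =>
    (QD.H76.cont z hz0.ne' x y).norm.pow 2

theorem ms_tr (r : ℕ) (z : ℂ) (V : Tor d M → ℝ) (x : Tor d M) :
    ms r z (tr x V) = ∑ y ∈ bx d M r, ‖rs V z x (x + y)‖ ^ 2 := by
  unfold ms
  refine Finset.sum_congr rfl fun y _ => ?_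
  rw [QD.H76.transl, add_zero]

theorem sum_ms (r : ℕ) (z : ℂ) (V : Tor d M → ℝ) :
    ∑ x ∈ bx d M r, ms r z (tr x V) ≤ mss V z (bx d M (2 * r)) := by
  classical
  unfold mss
  calc ∑ x ∈ bx d M r, ms r z (tr x V)
      ≤ ∑ x ∈ bx d M r, ∑ y ∈ bx d M (2 * r), ‖rs V z x y‖ ^ 2 := by
        refine Finset.sum_le_sum fun x hx => ?_
        rw [ms_tr]
        have h1 : ∑ y ∈ bx d M r, ‖rs V z x (x + y)‖ ^ 2 =
            ∑ y ∈ (bx d M r).image (fun y => x + y), ‖rs V z x y‖ ^ 2 := by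
          rw [Finset.sum_image]
          intro y _ y' _ h
          exact add_left_cancel h
        rw [h1]
        refine Finset.sum_le_sum_of_subset_of_nonneg ?_ fun _ _ _ => by positivity
        intro w hw
        obtain ⟨y, hy, rfl⟩ := Finset.mem_image.1 hw
        exact add_mem_bx hx hy
    _ ≤ ∑ x ∈ bx d M (2 * r), ∑ y ∈ bx d M (2 * r), ‖rs V z x y‖ ^ 2 :=
        Finset.sum_le_sum_of_subset_of_nonneg (bx_sub r)
          fun _ _ _ => Finset.sum_nonneg fun _ _ => by positivity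

theorem mss_le (V : Tor d M → ℝ) {z : ℂ} (hz0 : 0 < z.im) (C : Finset (Tor d M)) :
    mss V z C ≤ C.card / z.im ^ 2 := by
  unfold mss
  have h : ∀ x ∈ C, ∑ y ∈ C, ‖rs V z x y‖ ^ 2 ≤ 1 / z.im ^ 2 := by
    intro x _
    calc ∑ y ∈ C, ‖rs V z x y‖ ^ 2 ≤ ∑ y, ‖rs V z x y‖ ^ 2 :=
          Finset.sum_le_sum_of_subset_of_nonneg (Finset.subset_univ _) fun _ _ _ => by positivity
      _ = (rs V z x x).im / z.im := QD.H76.row V hz0 x
      _ ≤ (1 / z.im) / z.im := by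
          refine div_le_div_of_nonneg_right ?_ hz0.le
          exact ((le_abs_self _).trans (Complex.abs_im_le_norm _)).trans
            (QD.H76.entry_bd V hz0 x x)
      _ = 1 / z.im ^ 2 := by
          field_simp
  refine (Finset.sum_le_sum h).trans (le_of_eq ?_)
  rw [Finset.sum_const, nsmul_eq_mul]
  ring

theorem mp_tr (v : ℝ≥0) (x : Tor d M) :
    MeasurePreserving (tr x) (gau d M v) (gau d M v) :=
  (Pool.Agent.BED.H61.cov d M 0 0 x).2.2.2.2.2 v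

theorem mean_ms (v : ℝ≥0) (r : ℕ) {z : ℂ} (hz0 : 0 < z.im) :
    ((bx d M r).card : ℝ≥0∞) * ∫⁻ V, ENNReal.ofReal (ms r z V) ∂(gau d M v) ≤
      ∫⁻ V, ENNReal.ofReal (mss V z (bx d M (2 * r))) ∂(gau d M v) := by
  have hm : Measurable fun V : Tor d M → ℝ => ENNReal.ofReal (ms r z V) :=
    (ENNReal.continuous_ofReal.comp (ms_cont r hz0)).measurable
  have h1 : ∀ x : Tor d M, ∫⁻ V, ENNReal.ofReal (ms r z (tr x V)) ∂(gau d M v) =
      ∫⁻ V, ENNReal.ofReal (ms r z V) ∂(gau d M v) :=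
    fun x => (mp_tr v x).lintegral_comp hm
  have h2 : ((bx d M r).card : ℝ≥0∞) * ∫⁻ V, ENNReal.ofReal (ms r z V) ∂(gau d M v) =
      ∫⁻ V, ∑ x ∈ bx d M r, ENNReal.ofReal (ms r z (tr x V)) ∂(gau d M v) := by
    have hm' : ∀ x ∈ bx d M r, Measurable fun V : Tor d M → ℝ =>
        ENNReal.ofReal (ms r z (tr x V)) := fun x _ => hm.comp (mp_tr v x).measurable
    rw [lintegral_finsetSum _ hm']
    simp only [h1, Finset.sum_const, nsmul_eq_mul]
  rw [h2]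
  refine lintegral_mono fun V => ?_
  rw [← ENNReal.ofReal_sum_of_nonneg fun x _ => ms_nn r z (tr x V)]
  exact ENNReal.ofReal_le_ofReal (sum_ms r z V)

theorem mean_mss (v : ℝ≥0) (C : Finset (Tor d M)) {z : ℂ} (hz0 : 0 < z.im) {q : ℝ} (hq : 0 ≤ q)
    {P : ℝ} (hP : 0 ≤ P) (hbad : gau d M v {V | ¬ mss V z C ≤ q} ≤ ENNReal.ofReal P) :
    ∫⁻ V, ENNReal.ofReal (mss V z C) ∂(gau d M v) ≤
      ENNReal.ofReal (q + C.card / z.im ^ 2 * P) := by
  have hprob : IsProbabilityMeasure (gau d M v) := by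
    unfold gau
    infer_instance
  have hb : MeasurableSet {V : Tor d M → ℝ | ¬ mss V z C ≤ q} :=
    (measurableSet_le (mss_cont C hz0).measurable measurable_const).compl
  have h1 : ∀ V : Tor d M → ℝ, ENNReal.ofReal (mss V z C) ≤ ENNReal.ofReal q +
      {V : Tor d M → ℝ | ¬ mss V z C ≤ q}.indicator
        (fun _ => ENNReal.ofReal (C.card / z.im ^ 2)) V := by
    intro V
    by_cases h : mss V z C ≤ q
    · exact (ENNReal.ofReal_le_ofReal h).trans le_self_add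
    · rw [Set.indicator_of_mem (by exact h)]
      exact (ENNReal.ofReal_le_ofReal (mss_le V hz0 C)).trans le_add_self
  refine (lintegral_mono h1).trans ?_
  rw [lintegral_add_left measurable_const, lintegral_const, measure_univ, mul_one,
    lintegral_indicator hb, setLIntegral_const]
  rw [ENNReal.ofReal_add hq (by positivity), ENNReal.ofReal_mul (by positivity)]
  gcongr

end mean

/-- numbers -/
theorem num {D K w : ℝ} {d : ℕ} (hK : 2 * D ≤ K) (hD : 1 ≤ D) (hw : K + d + 2 ≤ w) :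
    D / w ^ 2 + K / 2 * (Real.exp (-(w ^ 4)) * Real.exp w ^ d) ≤ 1 / w := by
  have hd : (0 : ℝ) ≤ d := Nat.cast_nonneg d
  have hw2 : 2 ≤ w := by linarith
  have hw0 : 0 < w := by linarith
  obtain ⟨X, hX⟩ : ∃ X, X = Real.exp (-(w ^ 4)) * Real.exp w ^ d := ⟨_, rfl⟩
  have h1 : w * X ≤ Real.exp (-w) := by
    have h2 : w ≤ Real.exp w := by
      have := Real.add_one_le_exp w
      linarith
    have h3 : Real.exp w * X = Real.exp (w + (-(w ^ 4) + d * w)) := by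
      rw [hX, Real.exp_add, Real.exp_add, Real.exp_nat_mul]
    have h4 : w + (-(w ^ 4) + d * w) ≤ -w := by
      have h5 : w ≤ w ^ 3 := by nlinarith [sq_nonneg (w - 1)]
      have h6 : ((d : ℝ) + 2) * w ≤ w ^ 3 * w := by
        refine mul_le_mul_of_nonneg_right ?_ hw0.le
        linarith
      nlinarith
    have hX0 : 0 ≤ X := by
      rw [hX]
      positivity
    calc w * X ≤ Real.exp w * X := mul_le_mul_of_nonneg_right h2 hX0
      _ = Real.exp (w + (-(w ^ 4) + d * w)) := h3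
      _ ≤ Real.exp (-w) := Real.exp_le_exp.2 h4
  have h7 : Real.exp (-w) ≤ 1 / w := by
    rw [Real.exp_neg, inv_eq_one_div]
    refine one_div_le_one_div_of_le hw0 ?_
    have := Real.add_one_le_exp w
    linarith
  rw [← hX]
  have h8 : w * X ≤ 1 / w := h1.trans h7
  have h9 : X ≤ 1 / w ^ 2 := by
    rw [le_div_iff₀ (by positivity)]
    rw [le_div_iff₀ hw0] at h8
    linarith [h8, sq w]
  have hK0 : 0 ≤ K / 2 := by linarith
  calc D / w ^ 2 + K / 2 * X ≤ D / w ^ 2 + K / 2 * (1 / w ^ 2) := by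
        have := mul_le_mul_of_nonneg_left h9 hK0
        linarith
    _ = (D + K / 2) / w ^ 2 := by ring
    _ ≤ w / w ^ 2 := div_le_div_of_nonneg_right (by linarith) (by positivity)
    _ = 1 / w := by
        rw [sq, div_mul_cancel_left₀ hw0.ne', one_div]

/-- the first condition for the box -/
theorem cnd1 {s ε η R : ℝ} (d : ℕ) (hs0 : 0 < s) (hs25 : s ≤ 1 / 25) (hε1 : ε ≤ 1) (hη0 : 0 < η)
    (hη3 : η ≤ s ^ 3) (hR0 : 0 ≤ R) (hR1 : R ≤ s ^ (ε - 1) / Real.sqrt η)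
    (hs8 : s ^ (ε / 2) ≤ 1 / 8) :
    (4 * R + 1) ^ d ≤ (s ^ (ε / 2 - 1) / Real.sqrt η) ^ d := by
  have hsq : Real.sqrt η ≤ 1 / 8 := by
    rw [Real.sqrt_le_left (by norm_num)]
    have h1 : s ^ 3 ≤ (1 / 25 : ℝ) ^ 3 := by gcongr
    refine hη3.trans (h1.trans ?_)
    norm_num
  have hsq0 : 0 < Real.sqrt η := Real.sqrt_pos.2 hη0
  refine pow_le_pow_left₀ (by positivity) ?_ d
  obtain ⟨Y, hY⟩ : ∃ Y : ℝ, Y = s ^ (ε / 2 - 1) / Real.sqrt η := ⟨_, rfl⟩
  have h1 : R ≤ s ^ (ε / 2) * Y := by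
    refine hR1.trans (le_of_eq ?_)
    rw [hY, ← mul_div_assoc, ← Real.rpow_add hs0]
    have e : ε / 2 + (ε / 2 - 1) = ε - 1 := by ring
    rw [e]
  have h2 : 8 ≤ Y := by
    rw [hY, le_div_iff₀ hsq0]
    have h3 : 1 ≤ s ^ (ε / 2 - 1) :=
      Real.one_le_rpow_of_pos_of_le_one_of_nonpos hs0 (by linarith) (by linarith)
    linarith
  have h4 : s ^ (ε / 2) * Y ≤ 1 / 8 * Y := mul_le_mul_of_nonneg_right hs8 (by linarith)
  rw [← hY]
  linarith

/-- the second condition for the box -/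
theorem cnd2 {s ε M R : ℝ} {d : ℕ} (hd : 3 ≤ d) (hs0 : 0 < s) (hs25 : s ≤ 1 / 25) (hε1 : ε ≤ 1)
    (hM0 : 0 < M) (hM5 : s ^ (-5 : ℝ) ≤ M) (hR0 : 0 ≤ R) (hR2 : R ≤ s * M) :
    (4 * R + 1) ^ d ≤ s ^ (ε / 2) * M ^ d := by
  have hMd : 0 < M ^ d := by positivity
  have hsM : 1 ≤ s * M := by
    have h1 : s * s ^ (-5 : ℝ) ≤ s * M := mul_le_mul_of_nonneg_left hM5 hs0.le
    have h2 : s * s ^ (-5 : ℝ) = s ^ (-4 : ℝ) := by
      nth_rewrite 1 [← Real.rpow_one s]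
      rw [← Real.rpow_add hs0]
      norm_num
    have h3 : 1 ≤ s ^ (-4 : ℝ) :=
      Real.one_le_rpow_of_pos_of_le_one_of_nonpos hs0 (by linarith) (by norm_num)
    linarith
  have h1 : (4 * R + 1) ^ d ≤ (5 * s * M) ^ d := by
    refine pow_le_pow_left₀ (by positivity) ?_ d
    nlinarith
  refine h1.trans ?_
  rw [mul_pow]
  refine mul_le_mul_of_nonneg_right ?_ hMd.le
  have h2 : (5 * s) ^ d ≤ (5 * s) ^ 1 :=
    pow_le_pow_of_le_one (by positivity) (by linarith) (by omega)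
  have h3 : 5 * s ≤ Real.sqrt s := by
    have h4 : Real.sqrt s ≤ 1 / 5 := by
      rw [Real.sqrt_le_left (by norm_num)]
      norm_num
      linarith
    have h5 := Real.mul_self_sqrt hs0.le
    have h6 := Real.sqrt_nonneg s
    nlinarith
  have h7 : Real.sqrt s ≤ s ^ (ε / 2) := by
    rw [Real.sqrt_eq_rpow]
    exact Real.rpow_le_rpow_of_exponent_ge hs0 (by linarith) (by linarith)
  rw [pow_one] at h2
  linarith

/-- the conclusion from the bound for the box of the double size -/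
theorem core {d M : ℕ} [NeZero M] (v : ℝ≥0) (R : ℕ) (h2R : 2 * R < M) {E η q P t : ℝ}
    (hη0 : 0 < η) (hq : 0 ≤ q) (hP : 0 ≤ P)
    (hbad : gau d M v {V | ¬ mss V ⟨E, η⟩ (bx d M (2 * R)) ≤ q * (bx d M (2 * R)).card / η} ≤
      ENNReal.ofReal P) (ht : (2 : ℝ) ^ d * (q + P * (1 / η)) ≤ t) :
    ∫⁻ V, ENNReal.ofReal (∑ y, if ∀ i, |((y i).valMinAbs : ℝ)| ≤ R then
      ‖rs V ⟨E, η⟩ 0 y‖ ^ 2 else 0) ∂(gau d M v) ≤ ENNReal.ofReal (t / η) := by
  obtain ⟨D, hD⟩ : ∃ D : ℝ, D = 2 ^ d := ⟨_, rfl⟩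
  rw [← hD] at ht
  have hD1 : 1 ≤ D := by
    rw [hD]
    exact one_le_pow₀ (by norm_num)
  have hR0 : (0 : ℝ) ≤ R := Nat.cast_nonneg R
  have hz0 : 0 < (⟨E, η⟩ : ℂ).im := hη0
  obtain ⟨B, hB⟩ : ∃ B : Finset (Tor d M), B = bx d M (2 * R) := ⟨_, rfl⟩
  have hBc : (B.card : ℝ) ≤ (4 * R + 1) ^ d := by
    have h1 := card_bx_le (d := d) (M := M) (2 * R)
    rw [← hB] at h1
    have h2 : ((B.card : ℕ) : ℝ) ≤ (((2 * (2 * R) + 1) ^ d : ℕ) : ℝ) := by exact_mod_cast h1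
    refine h2.trans (le_of_eq ?_)
    push_cast
    ring
  rw [← hB] at hbad
  have hq' : 0 ≤ q * B.card / η := by positivity
  have H5 := mean_mss v B hz0 hq' hP hbad
  have H6 := mean_ms (d := d) (M := M) v R hz0
  rw [← hB] at H6
  obtain ⟨I, hI⟩ : ∃ I, I = ∫⁻ V, ENNReal.ofReal (ms R (⟨E, η⟩ : ℂ) V) ∂(gau d M v) := ⟨_, rfl⟩
  have hgoal : ∫⁻ V, ENNReal.ofReal (∑ y, if ∀ i, |((y i).valMinAbs : ℝ)| ≤ R then
      ‖rs V ⟨E, η⟩ 0 y‖ ^ 2 else 0) ∂(gau d M v) = I := by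
    rw [hI]
    refine lintegral_congr fun V => ?_
    congr 1
    unfold ms
    rw [← Finset.sum_filter]
    refine Finset.sum_congr ?_ fun _ _ => rfl
    ext y
    rw [Finset.mem_filter, mem_real]
    simp
  rw [hgoal]
  rw [← hI] at H6
  obtain ⟨A, hA⟩ : ∃ A : Finset (Tor d M), A = bx d M R := ⟨_, rfl⟩
  rw [← hA] at H6
  have hAc : ((2 * R + 1 : ℝ)) ^ d ≤ A.card := by
    have h1 := card_bx_ge (d := d) (M := M) h2R
    rw [← hA] at h1
    exact_mod_cast h1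
  have hA0 : (0 : ℝ) < A.card := lt_of_lt_of_le (by positivity) hAc
  have hBA : (B.card : ℝ) ≤ D * A.card := by
    have h1 : (4 * (R : ℝ) + 1) ^ d ≤ (2 * (2 * R + 1)) ^ d :=
      pow_le_pow_left₀ (by positivity) (by linarith) d
    rw [mul_pow, ← hD] at h1
    refine hBc.trans (h1.trans ?_)
    exact mul_le_mul_of_nonneg_left hAc (by linarith)
  have H7 : q * B.card / η + B.card / (⟨E, η⟩ : ℂ).im ^ 2 * P ≤ A.card * (t / η) := by
    have e1 : q * B.card / η + B.card / (⟨E, η⟩ : ℂ).im ^ 2 * P =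
        B.card * ((q + P * (1 / η)) / η) := by
      show q * B.card / η + B.card / η ^ 2 * P = _
      field_simp
    have h0 : 0 ≤ (q + P * (1 / η)) / η := by positivity
    rw [e1]
    calc (B.card : ℝ) * ((q + P * (1 / η)) / η)
        ≤ D * A.card * ((q + P * (1 / η)) / η) := mul_le_mul_of_nonneg_right hBA h0
      _ = A.card * (D * (q + P * (1 / η)) / η) := by ring
      _ ≤ A.card * (t / η) :=
          mul_le_mul_of_nonneg_left (div_le_div_of_nonneg_right ht hη0.le) hA0.le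
  have H8 : ((A.card : ℕ) : ℝ≥0∞) * I ≤ ((A.card : ℕ) : ℝ≥0∞) * ENNReal.ofReal (t / η) := by
    refine H6.trans (H5.trans ((ENNReal.ofReal_le_ofReal H7).trans (le_of_eq ?_)))
    rw [ENNReal.ofReal_mul hA0.le, ENNReal.ofReal_natCast]
  have hA1 : ((A.card : ℕ) : ℝ≥0∞) ≠ 0 := by
    have : 0 < A.card := by exact_mod_cast hA0
    exact_mod_cast this.ne'
  exact (ENNReal.mul_le_mul_iff_right hA1 (ENNReal.natCast_ne_top _)).1 H8

/-- the choice of the constants -/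
theorem consts (c₀ θ₀ ε K : ℝ) (d : ℕ) (hc0 : 0 < c₀) (hθ0 : 0 < θ₀) (hε : 0 < ε) (hK : 0 ≤ K) :
    ∃ c : ℝ, 0 < c ∧ c ≤ c₀ ∧ c ≤ 1 / 25 ∧ ∀ s : ℝ, 0 < s → s ≤ c →
      s ^ (ε / 2) ≤ 1 / 8 ∧ ∃ w : ℝ, K + d + 2 ≤ w ∧ w = s ^ (-(θ₀ / 2)) ∧
        s ^ (θ₀ / 2) = 1 / w ∧ s ^ θ₀ = 1 / w ^ 2 ∧ s ^ (-(2 * θ₀)) = w ^ 4 := by
  obtain ⟨W, hW⟩ : ∃ W : ℝ, W = K + d + 2 := ⟨_, rfl⟩
  have hdn : (0 : ℝ) ≤ d := Nat.cast_nonneg d
  have hW0 : 0 < W := by linarith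
  refine ⟨min (min c₀ (1 / 25)) (min (W ^ (-(2 / θ₀))) ((1 / 8 : ℝ) ^ (2 / ε))),
    lt_min (lt_min hc0 (by norm_num)) (lt_min (Real.rpow_pos_of_pos hW0 _)
      (Real.rpow_pos_of_pos (by norm_num) _)), (min_le_left _ _).trans (min_le_left _ _),
    (min_le_left _ _).trans (min_le_right _ _), ?_⟩
  intro s hs0 hsc
  have hcW : s ≤ W ^ (-(2 / θ₀)) := hsc.trans ((min_le_right _ _).trans (min_le_left _ _))
  have hc8 : s ≤ (1 / 8 : ℝ) ^ (2 / ε) := hsc.trans ((min_le_right _ _).trans (min_le_right _ _))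
  constructor
  · have h1 : s ^ (ε / 2) ≤ ((1 / 8 : ℝ) ^ (2 / ε)) ^ (ε / 2) :=
      Real.rpow_le_rpow hs0.le hc8 (by linarith)
    rw [← Real.rpow_mul (by norm_num)] at h1
    have e : 2 / ε * (ε / 2) = 1 := by
      field_simp
    rwa [e, Real.rpow_one] at h1
  · obtain ⟨w, hw⟩ : ∃ w : ℝ, w = s ^ (-(θ₀ / 2)) := ⟨_, rfl⟩
    have hwW : W ≤ w := by
      have h1 : (W ^ (-(2 / θ₀))) ^ (-(θ₀ / 2)) ≤ s ^ (-(θ₀ / 2)) :=
        Real.rpow_le_rpow_of_nonpos hs0 hcW (by linarith)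
      rw [← Real.rpow_mul hW0.le] at h1
      have e : -(2 / θ₀) * -(θ₀ / 2) = 1 := by
        field_simp
      rw [e, Real.rpow_one] at h1
      rw [hw]
      exact h1
    have hsθ : s ^ (θ₀ / 2) = 1 / w := by
      rw [hw, Real.rpow_neg hs0.le, one_div, inv_inv]
    refine ⟨w, by rw [← hW]; exact hwW, hw, hsθ, ?_, ?_⟩
    · have e : s ^ θ₀ = (s ^ (θ₀ / 2)) ^ (2 : ℕ) := by
        rw [← Real.rpow_natCast, ← Real.rpow_mul hs0.le]
        have e' : θ₀ / 2 * ((2 : ℕ) : ℝ) = θ₀ := by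
          push_cast
          ring
        rw [e']
      rw [e, hsθ, div_pow, one_pow]
    · have e : -(2 * θ₀) = -(θ₀ / 2) * ((4 : ℕ) : ℝ) := by
        push_cast
        ring
      rw [e, Real.rpow_mul hs0.le, Real.rpow_natCast, ← hw]

/-- TMA -/
theorem tma : TorStmt → TmaStmt := by
  intro tor d a ε hd ha hε hε1
  obtain ⟨θ₀, c₀, C₀, hθ0, hθ1, hc0, hc1, hC, H⟩ :=
    tor d a (ε / 2) hd ha (by linarith) (by linarith)
  obtain ⟨D, hD⟩ : ∃ D : ℝ, D = 2 ^ d := ⟨_, rfl⟩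
  have hD1 : 1 ≤ D := by
    rw [hD]
    exact one_le_pow₀ (by norm_num)
  obtain ⟨K, hK⟩ : ∃ K : ℝ, K = 2 * D * (C₀ + 1) := ⟨_, rfl⟩
  have hKD : 2 * D ≤ K := by
    rw [hK]
    nlinarith
  obtain ⟨c, hcpos, hcc, hc25, hc⟩ := consts c₀ θ₀ ε K d hc0 hθ0 hε (by linarith)
  refine ⟨θ₀ / 2, c, by linarith, hcpos, by linarith, ?_⟩
  intro M R _ v σ E η hv hσ hσc hE hM5 hMe hηM hη3 hR1 hR2
  have hs0 : 0 < |σ| := abs_pos.2 hσ
  have H0 := H M v σ E η hv hσ (hσc.trans hcc) hE hM5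
  obtain ⟨s, hs⟩ : ∃ s : ℝ, s = |σ| := ⟨_, rfl⟩
  rw [← hs] at hσc hM5 hMe hηM hη3 hR1 hR2 H0 hs0 ⊢
  have hs1 : s ≤ 1 := by linarith
  have hM0 : (0 : ℝ) < M := by
    have := Nat.pos_of_ne_zero (NeZero.ne M)
    exact_mod_cast this
  have hMd : (0 : ℝ) < (M : ℝ) ^ d := by positivity
  have hη0 : 0 < η := by
    have h1 : 0 < η * (M : ℝ) ^ d := lt_of_lt_of_le (Real.rpow_pos_of_pos hs0 _) hηM
    by_contra hcon
    rw [not_lt] at hcon
    have := mul_nonpos_of_nonpos_of_nonneg hcon hMd.le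
    linarith
  obtain ⟨hs8, w, hwW, hw, hsθ, hsθ₀, hw4⟩ := hc s hs0 hσc
  obtain ⟨m, -, -, -, H2⟩ := H0
    (hMe.trans (Real.exp_le_exp.2 (Real.rpow_le_rpow_of_exponent_ge hs0 hs1 (by linarith))))
    ((Real.rpow_le_rpow_of_exponent_ge hs0 hs1 (by linarith)).trans hηM) hη3
  obtain ⟨ξ, hξ⟩ : ∃ ξ : ℝ, ξ = Real.exp (s ^ (-(2 * θ₀))) := ⟨_, rfl⟩
  have hξ1 : 1 ≤ ξ := by
    rw [hξ]
    exact Real.one_le_exp (Real.rpow_nonneg hs0.le _)
  have H3 := H2 ⟨0, by omega⟩ ξ hξ1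
  obtain ⟨P, hP⟩ : ∃ P : ℝ, P = C₀ / ξ + Real.exp (-(s ^ (-(2 * θ₀)))) := ⟨_, rfl⟩
  rw [← hP] at H3
  have hξ0 : 0 < ξ := by linarith
  have hP0 : 0 ≤ P := by
    rw [hP]
    positivity
  have hP1 : P = (C₀ + 1) * Real.exp (-(w ^ 4)) := by
    rw [hP, hξ, hw4, Real.exp_neg]
    ring
  have hR0 : (0 : ℝ) ≤ R := Nat.cast_nonneg R
  have hBc : ((bx d M (2 * R)).card : ℝ) ≤ (4 * R + 1) ^ d := by
    have h1 := card_bx_le (d := d) (M := M) (2 * R)
    have h2 : (((bx d M (2 * R)).card : ℕ) : ℝ) ≤ (((2 * (2 * R) + 1) ^ d : ℕ) : ℝ) := by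
      exact_mod_cast h1
    refine h2.trans (le_of_eq ?_)
    push_cast
    ring
  have hB1 := hBc.trans (cnd1 d hs0 (hσc.trans hc25) hε1 hη0 hη3 hR0 hR1 hs8)
  have hB2 := hBc.trans (cnd2 hd hs0 (hσc.trans hc25) hε1 hM0 hM5 hR0 hR2)
  have h2R : 2 * R < M := by
    have h1 : (2 * (R : ℝ)) < M := by nlinarith
    exact_mod_cast h1
  refine core v R h2R hη0 (q := s ^ θ₀) (P := P) (Real.rpow_nonneg hs0.le _) hP0 ?_ ?_
  · refine le_trans (measure_mono ?_) H3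
    intro V hV hcon
    exact hV (hcon.2.2.1 _ hB1 hB2)
  · have hηi : 1 / η ≤ Real.exp w ^ d := by
      have h1 : 1 ≤ η * (M : ℝ) ^ d := by
        refine le_trans ?_ hηM
        exact Real.one_le_rpow_of_pos_of_le_one_of_nonpos hs0 hs1 (by linarith)
      have h2 : (M : ℝ) ^ d ≤ Real.exp w ^ d := by
        rw [hw]
        exact pow_le_pow_left₀ hM0.le hMe d
      rw [div_le_iff₀ hη0, mul_comm]
      exact h1.trans (mul_le_mul_of_nonneg_left h2 hη0.le)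
    have h2 : P * (1 / η) ≤ P * Real.exp w ^ d := mul_le_mul_of_nonneg_left hηi hP0
    have h3 := num (d := d) hKD hD1 hwW
    rw [hsθ, hsθ₀, ← hD]
    refine le_trans ?_ h3
    calc D * (1 / w ^ 2 + P * (1 / η)) ≤ D * (1 / w ^ 2 + P * Real.exp w ^ d) := by
          refine mul_le_mul_of_nonneg_left ?_ (by linarith)
          linarith
      _ = D / w ^ 2 + K / 2 * (Real.exp (-(w ^ 4)) * Real.exp w ^ d) := by
          rw [hP1, hK]
          ring

end Pool.Agent.LE.QY.H76
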